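import Pool.Agent.H50.G.S.H705R2.MLogA
import Pool.Agent.H50.G.S.H307R2.Sg6
/-!
Lower bound for `L(1, χ)` for all real nonprincipal characters, primitive or not, and the final
log-weighted bound for all nonprincipal characters.
-/

set_option autoImplicit false

open MeasureTheory Complex Filter Topology Set
open scoped Real

namespace Pool.Agent.H705R2.MSW

open Pool.Agent.H379R2.SW

/-- `∏_{p ∣ q} (1 - 1/p) ≥ c q^{-ε}` in the form needed. -/
lemma prod_lower {ε : ℝ} (hε : 0 < ε) : ∃ c : ℝ, 0 < c ∧ ∀ q : ℕ, 1 ≤ q →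
    c * (q : ℝ) ^ (-ε) ≤ ∏ p ∈ q.primeFactors, (1 - (p : ℝ)⁻¹) := by
  obtain ⟨P, hP⟩ := exists_nat_ge ((2 : ℝ) ^ (1 / ε))
  refine ⟨(1 / 2) ^ P, by positivity, fun q hq => ?_⟩
  have hq0 : q ≠ 0 := by omega
  have h1 : ∀ p ∈ q.primeFactors, (if p < P then (1 / 2 : ℝ) else 1) * (p : ℝ) ^ (-ε) ≤
      1 - (p : ℝ)⁻¹ := by
    intro p hp
    have hpp := Nat.prime_of_mem_primeFactors hp
    have hp2 : (2 : ℝ) ≤ p := by exact_mod_cast hpp.two_le
    have hp0 : (0 : ℝ) < p := by linarith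
    have hinv : (p : ℝ)⁻¹ ≤ 1 / 2 := by
      rw [inv_eq_one_div]
      exact one_div_le_one_div_of_le (by norm_num) hp2
    split_ifs with h
    · have : (p : ℝ) ^ (-ε) ≤ 1 := Real.rpow_le_one_of_one_le_of_nonpos (by linarith) (by linarith)
      linarith
    · rw [one_mul]
      have h2 : (P : ℝ) ≤ p := by exact_mod_cast not_lt.mp h
      have h3 : (2 : ℝ) ≤ (p : ℝ) ^ ε := by
        calc (2 : ℝ) = ((2 : ℝ) ^ (1 / ε)) ^ ε := by
              rw [← Real.rpow_mul (by norm_num)]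
              rw [one_div, inv_mul_cancel₀ hε.ne', Real.rpow_one]
          _ ≤ (p : ℝ) ^ ε := Real.rpow_le_rpow (by positivity) (hP.trans h2) hε.le
      rw [Real.rpow_neg hp0.le]
      have h4 : ((p : ℝ) ^ ε)⁻¹ ≤ 1 / 2 := by
        rw [inv_eq_one_div]
        exact one_div_le_one_div_of_le (by norm_num) h3
      linarith
  have h2 : ∏ p ∈ q.primeFactors, ((if p < P then (1 / 2 : ℝ) else 1) * (p : ℝ) ^ (-ε)) ≤
      ∏ p ∈ q.primeFactors, (1 - (p : ℝ)⁻¹) := by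
    apply Finset.prod_le_prod
    · intro p hp
      split_ifs <;> positivity
    · exact h1
  refine le_trans ?_ h2
  rw [Finset.prod_mul_distrib]
  apply mul_le_mul
  · rw [Finset.prod_ite, Finset.prod_const, Finset.prod_const_one, mul_one]
    apply pow_le_pow_of_le_one (by norm_num) (by norm_num)
    calc (q.primeFactors.filter (fun p => p < P)).card ≤ (Finset.range P).card := by
          apply Finset.card_le_card
          intro p hp
          rw [Finset.mem_filter] at hp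
          exact Finset.mem_range.mpr hp.2
      _ = P := Finset.card_range P
  · rw [Real.finsetProd_rpow _ _ (fun p _ => Nat.cast_nonneg p)]
    have h3 : (∏ p ∈ q.primeFactors, (p : ℝ)) ≤ q := by
      have := Nat.le_of_dvd (by omega) (Nat.prod_primeFactors_dvd q)
      have h5 : ((∏ p ∈ q.primeFactors, p : ℕ) : ℝ) ≤ q := by exact_mod_cast this
      rwa [Nat.cast_prod] at h5
    have h4 : (0 : ℝ) < ∏ p ∈ q.primeFactors, (p : ℝ) := by
      apply Finset.prod_pos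
      intro p hp
      exact_mod_cast (Nat.prime_of_mem_primeFactors hp).pos
    exact Real.rpow_le_rpow_of_nonpos h4 h3 (by linarith)
  · positivity
  · apply Finset.prod_nonneg
    intro p hp
    split_ifs <;> norm_num

/-- Lower bound at `1` for all real nonprincipal characters. -/
theorem siegel_all {ε : ℝ} (hε : 0 < ε) : ∃ c : ℝ, 0 < c ∧ ∀ (q : ℕ) [NeZero q]
    (χ : DirichletCharacter ℂ q), χ ^ 2 = 1 → χ ≠ 1 → c * (q : ℝ) ^ (-ε) ≤ ‖χ.LFunction 1‖ := by
  obtain ⟨c₀, hc₀, hS⟩ := Pool.Agent.H307R2.siegel (ε / 2) (half_pos hε)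
  obtain ⟨c₁, hc₁, hP⟩ := prod_lower (half_pos hε)
  refine ⟨c₀ * c₁, by positivity, fun q _ χ h2 h1 => ?_⟩
  have hq : 1 ≤ q := NeZero.one_le
  have hqr : (1 : ℝ) ≤ q := by exact_mod_cast hq
  set f := χ.conductor with hf
  have hf0 : f ≠ 0 := DirichletCharacter.conductor_ne_zero χ
  have : NeZero f := ⟨hf0⟩
  set ψ : DirichletCharacter ℂ f := χ.primitiveCharacter with hψ
  have hprim : ψ.IsPrimitive := DirichletCharacter.primitiveCharacter_isPrimitive χ
  have hdvd : f ∣ q := χ.conductor_dvd_level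
  have hlev : DirichletCharacter.changeLevel hdvd ψ = χ := DirichletCharacter.changeLevel_primitiveCharacter χ
  have hψ1 : ψ ≠ 1 := by
    intro h
    apply h1
    rw [← hlev, h, map_one]
  have hψ2 : ψ ^ 2 = 1 := by
    apply DirichletCharacter.changeLevel_injective hdvd
    rw [map_pow, hlev, h2, map_one]
  have hfq : (f : ℝ) ≤ q := by exact_mod_cast Nat.le_of_dvd (by omega) hdvd
  have hf1 : (1 : ℝ) ≤ f := by exact_mod_cast Nat.one_le_iff_ne_zero.mpr hf0
  have hL := hS f ψ hprim hψ2 hψ1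
  have hL' : c₀ * (q : ℝ) ^ (-(ε / 2)) ≤ ‖ψ.LFunction 1‖ := by
    refine le_trans ?_ hL
    apply mul_le_mul_of_nonneg_left _ hc₀.le
    exact Real.rpow_le_rpow_of_nonpos (by linarith) hfq (by linarith)
  have hprod : ∏ p ∈ q.primeFactors, (1 - (p : ℝ)⁻¹) ≤
      ‖∏ p ∈ q.primeFactors, (1 - ψ p * (p : ℂ) ^ (-(1 : ℂ)))‖ := by
    rw [norm_prod]
    apply Finset.prod_le_prod
    · intro p hp
      have hpp := Nat.prime_of_mem_primeFactors hp
      have : (p : ℝ)⁻¹ ≤ 1 := inv_le_one_of_one_le₀ (by exact_mod_cast hpp.one_lt.le)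
      linarith
    · intro p hp
      have hpp := Nat.prime_of_mem_primeFactors hp
      have hp0 : (0 : ℝ) < p := by exact_mod_cast hpp.pos
      have h3 : ‖ψ p * (p : ℂ) ^ (-(1 : ℂ))‖ ≤ (p : ℝ)⁻¹ := by
        rw [norm_mul, cpow_neg_one, norm_inv, Complex.norm_natCast]
        have := ψ.norm_le_one (p : ZMod f)
        have h4 : (0 : ℝ) ≤ (p : ℝ)⁻¹ := by positivity
        nlinarith
      have h5 : ‖(1 : ℂ)‖ ≤ ‖1 - ψ p * (p : ℂ) ^ (-(1 : ℂ))‖ + ‖ψ p * (p : ℂ) ^ (-(1 : ℂ))‖ := by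
        have := norm_add_le (1 - ψ p * (p : ℂ) ^ (-(1 : ℂ))) (ψ p * (p : ℂ) ^ (-(1 : ℂ)))
        simpa using this
      rw [norm_one] at h5
      linarith
  rw [← hlev, DirichletCharacter.LFunction_changeLevel hdvd ψ (Or.inl hψ1), norm_mul]
  calc c₀ * c₁ * (q : ℝ) ^ (-ε) = (c₀ * (q : ℝ) ^ (-(ε / 2))) * (c₁ * (q : ℝ) ^ (-(ε / 2))) := by
        have : (q : ℝ) ^ (-ε) = (q : ℝ) ^ (-(ε / 2)) * (q : ℝ) ^ (-(ε / 2)) := by
          rw [← Real.rpow_add (by linarith)]; congr 1; ring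
        rw [this]; ring
    _ ≤ ‖ψ.LFunction 1‖ * ‖∏ p ∈ q.primeFactors, (1 - ψ p * (p : ℂ) ^ (-(1 : ℂ)))‖ :=
        mul_le_mul hL' ((hP q hq).trans hprod) (by positivity) (norm_nonneg _)

/-- The log-weighted bound for all nonprincipal characters. -/
theorem muLog_nonprincipal (k : ℕ) {θ : ℝ} (hθ : 0 < θ) (hθ2 : θ ≤ 1 / 2) :
    ∃ C : ℝ, 0 < C ∧ ∀ (q : ℕ) [NeZero q] (χ : DirichletCharacter ℂ q), χ ≠ 1 →
      ∀ x : ℝ, Real.exp 1 ≤ x →
        ‖muLog x q χ‖ ≤ C * x * (q : ℝ) ^ θ / (Real.log x) ^ k := by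
  obtain ⟨c₀, hc₀, hS⟩ := siegel_all (ε := θ / (17 * (k + 1))) (by positivity)
  obtain ⟨C, hC, h⟩ := muLog_bound k hθ hθ2 (c₁ := min c₀ 1) (lt_min hc₀ one_pos)
    (min_le_right _ _)
  refine ⟨C, hC, fun q _ χ hχ x hx => h q χ hχ (fun h2 => ?_) x hx⟩
  refine le_trans ?_ (hS q χ h2 hχ)
  apply mul_le_mul_of_nonneg_right (min_le_left _ _)
  positivity

end Pool.Agent.H705R2.MSW
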